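import Mathlib

set_option autoImplicit false
open MeasureTheory Measure Finset Filter Topology
open scoped Classical ComplexOrder

namespace Pool.Agent.H.MP_b39683_an

def G : Type := Equiv.Perm ℕ × (ℕ → ℤˣ)
instance : Group G := inferInstanceAs (Group (Equiv.Perm ℕ × (ℕ → ℤˣ)))
instance : TopologicalSpace G := ⊥
instance : DiscreteTopology G := ⟨rfl⟩
instance : MeasurableSpace G := ⊤
instance : BorelSpace G := ⟨(@borel_eq_top_of_discrete G _ _).symm⟩
instance : (count : Measure G).IsHaarMeasure where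
  lt_top_of_isCompact _ h := count_apply_lt_top.2 h.finite_of_discrete
  open_pos _ _ h := count_ne_zero h

noncomputable abbrev E := Lp ℂ 2 (count : Measure G)

noncomputable def one (A : Finset G) : E :=
  indicatorConstLp 2 A.measurableSet (count_apply_lt_top.2 A.finite_toSet).ne 1

theorem one_ap (A : Finset G) (x : G) : one A x = if x ∈ A then 1 else 0 := by
  rw [one, ae_count_iff.1 indicatorConstLp_coeFn x]; simp [Set.indicator_apply]

theorem one_in (A : Finset G) (f : E) : inner ℂ (one A) f = ∑ x ∈ A, f x := by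
  have : IsFiniteMeasure ((count : Measure G).restrict A) :=
    ⟨by simpa using count_apply_lt_top.2 A.finite_toSet⟩
  rw [one, L2.inner_indicatorConstLp_one, setIntegral_finset _ ((Lp.memLp f).restrict _ |>.integrable
    (by simp))]; simp

theorem one_norm (A : Finset G) : ‖one A‖ ^ 2 = #A := by
  have := one_in A (one A)
  rw [inner_self_eq_norm_sq_to_K, sum_congr rfl fun x hx => by rw [one_ap, if_pos hx]] at this
  simp only [sum_const, nsmul_eq_mul, mul_one] at this
  exact Complex.ofReal_injective (by push_cast; exact this)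

noncomputable def ev (x : G) : E →L[ℂ] ℂ := innerSL ℂ (one {x})

theorem ev_ap (x : G) (f : E) : ev x f = f x := by simp [ev, one_in]

theorem ext {f h : E} (e : ∀ x, f x = h x) : f = h := Lp.ext (.of_forall e)

noncomputable def cp (φ : G → G) (h : MeasurePreserving φ count count) : E →L[ℂ] E :=
  (Lp.compMeasurePreservingₗᵢ ℂ φ h).toContinuousLinearMap

theorem cp_ap (φ : G → G) (h : MeasurePreserving φ count count) (f : E) (x : G) :
    cp φ h f x = f (φ x) := ae_count_iff.1 (Lp.coeFn_compMeasurePreserving f h) x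

def g (n : ℕ) : G := (1, Pi.mulSingle n (-1))

theorem gg (n : ℕ) (x : G) : g n * (g n * x) = x := by
  rw [← mul_assoc, show g n * g n = 1 from Prod.ext rfl (by
    change Pi.mulSingle n (-1) * Pi.mulSingle n (-1) = (1 : ℕ → ℤˣ)
    rw [← Pi.mulSingle_mul]; simp), one_mul]

noncomputable def L (n : ℕ) : E →L[ℂ] E := cp _ (measurePreserving_mul_left count (g n))
noncomputable def Rr (t : G) : E →L[ℂ] E := cp _ (measurePreserving_mul_right count t)

noncomputable def V : ℕ → E →L[ℂ] E
  | 0 => 1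
  | n + 1 => (((1 + Complex.I) / 2) • 1 + ((1 - Complex.I) / 2) • L n) * V n

theorem L_norm (n : ℕ) (f : E) : ‖L n f‖ = ‖f‖ := LinearIsometry.norm_map _ f

theorem V_norm (n : ℕ) (f : E) : ‖V n f‖ = ‖f‖ := by
  induction n with
  | zero => rfl
  | succ n ih =>
    rw [← ih, V, ContinuousLinearMap.mul_apply]
    generalize V n f = h
    have e : inner ℂ (L n h) h = inner ℂ h (L n h) := by
      rw [← (Lp.compMeasurePreservingₗᵢ ℂ _ (measurePreserving_mul_left count (g n))).inner_map_map
        h (L n h)]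
      congr 1; exact ext fun x => by
        change _ = L n (L n h) x
        simp only [L, cp_ap, gg]
    have e2 : (inner ℂ h (L n h) : ℂ).im = 0 := Complex.conj_eq_iff_im.1 (by rw [inner_conj_symm, e])
    rw [← sq_eq_sq₀ (norm_nonneg _) (norm_nonneg _)]
    simp only [ContinuousLinearMap.add_apply, ContinuousLinearMap.smul_apply,
      ContinuousLinearMap.one_apply, norm_add_sq (𝕜 := ℂ), norm_smul, mul_pow, L_norm,
      inner_smul_left, inner_smul_right, Complex.sq_norm]
    simp [e2, Complex.normSq_apply, map_ofNat]; ring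

noncomputable def T : E →L[ℂ] E := ∑' n, ((3 / 4 : ℂ) ^ n) • (L n * V n)

theorem T_sum : Summable fun n => ((3 / 4 : ℂ) ^ n) • (L n * V n) :=
  .of_norm_bounded (summable_geometric_of_lt_one (r := 3 / 4) (by norm_num) (by norm_num)) fun n => by
    refine ContinuousLinearMap.opNorm_le_bound _ (by positivity) fun f => ?_
    simp [norm_smul, L_norm, V_norm]

theorem T_comm (t : G) : Commute T (Rr t) := by
  have h : ∀ n, Commute (L n) (Rr t) := fun n => ContinuousLinearMap.ext fun f => ext fun x => by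
    simp [L, Rr, cp_ap, mul_assoc]
  refine .tsum_left _ fun n => ((h n).mul_left ?_).smul_left _
  induction n with
  | zero => exact .one_left _
  | succ n ih => exact (((Commute.one_left _).smul_left _).add_left ((h n).smul_left _)).mul_left ih

noncomputable def H : ℕ → Finset G
  | 0 => {1}
  | n + 1 => H n ∪ (H n).image (g n * ·)

theorem H_succ (n : ℕ) (x : G) : x ∈ H (n + 1) ↔ x ∈ H n ∨ g n * x ∈ H n := by
  rw [H, mem_union, mem_image]
  exact or_congr_right ⟨by rintro ⟨y, h, rfl⟩; rwa [gg], fun h => ⟨_, h, gg _ _⟩⟩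

theorem g2 (n j : ℕ) (x : G) : (g n * x).2 j = if j = n then - x.2 j else x.2 j := by
  change Pi.mulSingle (M := fun _ => ℤˣ) n (-1) j * x.2 j = _
  rw [Pi.mulSingle_apply]; split_ifs <;> simp

theorem H_mem (n : ℕ) (x : G) : x ∈ H n ↔ x.1 = 1 ∧ ∀ j, n ≤ j → x.2 j = 1 := by
  induction n generalizing x with
  | zero => exact mem_singleton.trans ⟨by rintro rfl; exact ⟨rfl, fun _ _ => rfl⟩, fun h =>
      Prod.ext h.1 (funext fun j => h.2 j j.zero_le)⟩
  | succ n ih =>
    rw [H_succ, ih, ih, show (g n * x).1 = x.1 from one_mul _, ← and_or_left]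
    refine and_congr_right fun _ => ⟨fun h j hj => ?_, fun h => ?_⟩
    · rcases h with h | h
      · exact h j (by omega)
      · simpa [g2, show j ≠ n by omega] using h j (by omega)
    · rcases Int.units_eq_one_or (x.2 n) with e | e
      · exact .inl fun j hj => hj.eq_or_lt.elim (· ▸ e) (h j)
      · refine .inr fun j hj => ?_
        rw [g2]; split_ifs with k
        · simp [k, e]
        · exact h j (by omega)

theorem H_dis {n m : ℕ} {x : G} (h : g n * x ∈ H n) (l : m ≤ n) : x ∉ H m := fun k => by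
  have := ((H_mem _ _).1 h).2 n le_rfl
  simp [g2, ((H_mem _ _).1 k).2 n l] at this

theorem H_card (n : ℕ) : #(H n) = 2 ^ n := by
  induction n with
  | zero => rfl
  | succ n ih =>
    rw [H, card_union_of_disjoint (disjoint_right.2 fun x hx => by
      obtain ⟨y, h, rfl⟩ := mem_image.1 hx
      exact H_dis (by rwa [gg]) le_rfl), card_image_of_injective _ (mul_right_injective _), ih]
    ring

theorem V_ap (n : ℕ) (x : G) : ‖V n (one {1}) x‖ = if x ∈ H n then (√2 / 2) ^ n else 0 := by
  induction n generalizing x with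
  | zero => simp only [V, ContinuousLinearMap.one_apply, one_ap, H, apply_ite norm]; simp
  | succ n ih =>
    have e : V (n + 1) (one {1}) x = (1 + Complex.I) / 2 * V n (one {1}) x +
        (1 - Complex.I) / 2 * V n (one {1}) (g n * x) := by
      rw [← ev_ap, V]
      simp only [ContinuousLinearMap.mul_apply, ContinuousLinearMap.add_apply, map_add, map_smul,
        ContinuousLinearMap.smul_apply, ContinuousLinearMap.one_apply]
      simp [ev_ap, L, cp_ap]
    have a1 : ‖1 + Complex.I‖ = √2 := by simp [Complex.norm_def, Complex.normSq_apply]; norm_num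
    have a2 : ‖1 - Complex.I‖ = √2 := by simp [Complex.norm_def, Complex.normSq_apply]; norm_num
    have i1 := ih x
    have i2 := ih (g n * x)
    simp only [e, H_succ]
    by_cases h1 : x ∈ H n <;> by_cases h2 : g n * x ∈ H n
    · exact absurd h1 (H_dis h2 le_rfl)
    all_goals
      simp only [h1, h2, if_true, if_false, norm_eq_zero] at i1 i2
      simp [h1, h2, i1, i2, a1, a2, pow_succ']

theorem T_ap (n : ℕ) (x : G) (h : g n * x ∈ H n) : ‖T (one {1}) x‖ = (3 / 4 * (√2 / 2)) ^ n := by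
  have := ((ev x).comp (ContinuousLinearMap.apply ℂ E (one {1}))).map_tsum T_sum
  simp only [ContinuousLinearMap.comp_apply, ContinuousLinearMap.apply_apply, map_smul,
    ContinuousLinearMap.mul_apply, ev_ap, ← T.eq_1] at this
  simp only [L, cp_ap] at this
  rw [this, tsum_eq_single n fun m hm => ?_, norm_smul, V_ap, if_pos h, mul_pow]
  · simp
  · rw [norm_eq_zero.1 ((V_ap m _).trans (if_neg fun k => ?_)), smul_zero]
    rcases lt_or_gt_of_ne hm with l | l
    · exact H_dis h l ((H_succ _ _).2 (.inr k))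
    · exact H_dis k l ((H_succ _ _).2 (.inr h))

theorem reg (S : E →L[ℂ] E) (h : S ∈ Submodule.span ℂ {S : E →L[ℂ] E | ∀ f : E,
    (∀ᵐ s ∂count, 0 ≤ f s) → ∀ᵐ s ∂count, 0 ≤ S f s}) : ∃ C : ℝ, ∀ A : Finset G,
    ∑ y ∈ A, ∑ x ∈ A, ‖S (one {y}) x‖ ≤ C * #A := by
  induction h using Submodule.span_induction with
  | mem S h =>
    refine ⟨‖S‖, fun A => ?_⟩
    have e : one A = ∑ y ∈ A, one {y} := ext fun x => by
      rw [← ev_ap x (∑ _ ∈ _, _)]; simp [ev_ap, one_ap]
    have := norm_inner_le_norm (𝕜 := ℂ) (one A) (S (one A))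
    refine le_trans ?_ (this.trans ?_)
    · refine le_trans (le_of_eq ?_) (Complex.re_le_norm _)
      nth_rewrite 2 [e]
      simp only [_root_.map_sum, inner_sum, one_in, Complex.re_sum]
      exact sum_congr rfl fun y _ => sum_congr rfl fun x _ => (Complex.re_eq_norm.2 (ae_count_iff.1
        (h _ (.of_forall fun s => by rw [one_ap]; split_ifs <;> simp)) x)).symm
    · rw [← one_norm, sq, mul_left_comm]; gcongr; exact S.le_opNorm _
  | zero => exact ⟨0, by simp [← ev_ap]⟩
  | add S U _ _ a b =>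
    obtain ⟨C, a⟩ := a
    obtain ⟨D, b⟩ := b
    refine ⟨C + D, fun A => le_trans ?_ ((add_le_add (a A) (b A)).trans_eq (add_mul ..).symm)⟩
    simp only [← sum_add_distrib, ← ev_ap, ContinuousLinearMap.add_apply, map_add]
    gcongr; exact norm_add_le _ _
  | smul c S _ a =>
    obtain ⟨C, a⟩ := a
    refine ⟨‖c‖ * C, fun A => le_trans ?_ ((mul_le_mul_of_nonneg_left (a A)
      (norm_nonneg c)).trans_eq (mul_assoc ..).symm)⟩
    simp [← ev_ap, mul_sum]

theorem nreg : T ∉ Submodule.span ℂ {S : E →L[ℂ] E | ∀ f : E,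
    (∀ᵐ s ∂count, 0 ≤ f s) → ∀ᵐ s ∂count, 0 ≤ S f s} := fun h => by
  obtain ⟨C, h⟩ := reg T h
  have r : (1 : ℝ) < 2 * (3 / 4 * (√2 / 2)) := by
    have : (1.4 : ℝ) < √2 := Real.lt_sqrt_of_sq_lt (by norm_num)
    linarith
  obtain ⟨n, hn⟩ := ((tendsto_pow_atTop_atTop_of_one_lt r).eventually_gt_atTop C).exists
  refine hn.not_ge (le_of_mul_le_mul_right (le_trans ?_ (h (H (n + 1)))) (by simp [H_card]))
  rw [mul_comm, ← nsmul_eq_mul]
  refine card_nsmul_le_sum _ _ _ fun y hy => ?_
  have e : ∀ x, T (one {y}) x = T (one {1}) (x * y⁻¹) := fun x => by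
    rw [show one {y} = Rr y⁻¹ (one {1}) from ext fun s => by simp [Rr, cp_ap, one_ap, mul_inv_eq_one],
      ← ContinuousLinearMap.mul_apply, T_comm y⁻¹]
    simp [Rr, cp_ap]
  refine le_trans ?_ (sum_le_sum_of_subset_of_nonneg (s := (H n).image (g n * · * y))
    (fun x hx => ?_) fun _ _ _ => norm_nonneg _)
  · rw [sum_image fun a _ b _ e => by simpa using e, sum_congr rfl fun x hx => by
      rw [e, mul_inv_cancel_right, T_ap n _ (by rwa [gg])]]
    simp [H_card, mul_pow]
  · obtain ⟨z, hz, rfl⟩ := mem_image.1 hx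
    have := (H_mem _ _).1 ((H_succ n (g n * z)).2 (.inr (by rwa [gg])))
    have h2 := (H_mem _ _).1 hy
    exact (H_mem _ _).2 ⟨(congrArg₂ _ this.1 h2.1).trans (one_mul _), fun j hj =>
      (congrArg₂ _ (this.2 j hj) (h2.2 j hj)).trans (one_mul _)⟩

theorem nam (m : Lp ℝ ⊤ (count : Measure G) →ₗ[ℝ] ℝ)
    (h1 : ∀ f : Lp ℝ ⊤ (count : Measure G), (∀ᵐ s ∂count, f s = 1) → m f = 1)
    (h : ∀ (t : G) (f k : Lp ℝ ⊤ (count : Measure G)), (∀ᵐ s ∂count, k s = f (t⁻¹ * s)) →
      m k = m f) : False := by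
  obtain ⟨I, hI⟩ : ∃ I : Set ℕ → Lp ℝ ⊤ (count : Measure G), ∀ A s, I A s =
      if s.1 0 ∈ A then 1 else 0 := ⟨fun A => (memLp_top_of_bound (f := fun s : G =>
        if s.1 0 ∈ A then (1 : ℝ) else 0) measurable_from_top.aestronglyMeasurable 1
          (.of_forall fun s => by split_ifs <;> simp)).toLp, fun A => ae_count_iff.1 (MemLp.coeFn_toLp _)⟩
  have eq : ∀ A B : Set ℕ, A.Infinite → Aᶜ.Infinite → B.Infinite → Bᶜ.Infinite →
      m (I A) = m (I B) := fun A B a a' b b' => by
    have := a.to_subtype; have := a'.to_subtype; have := b.to_subtype; have := b'.to_subtype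
    obtain ⟨e⟩ : Nonempty (A ≃ B) := nonempty_equiv_of_countable
    obtain ⟨e'⟩ : Nonempty (↥Aᶜ ≃ ↥Bᶜ) := nonempty_equiv_of_countable
    obtain ⟨t, ht⟩ : ∃ t : G, t.1 = Equiv.subtypeCongr e e' := ⟨(_, 1), rfl⟩
    refine h t⁻¹ _ _ (.of_forall fun s => ?_)
    rw [hI, hI, inv_inv]
    refine if_congr ?_ rfl rfl
    change _ ↔ t.1 (s.1 0) ∈ B
    rw [ht]
    by_cases k : s.1 0 ∈ A
    · simp [Equiv.subtypeCongr, k]
    · have : (e' ⟨_, k⟩ : ℕ) ∉ B := (e' ⟨_, k⟩).2
      simp [Equiv.subtypeCongr, k, this]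
  have ad : ∀ A B : Set ℕ, Disjoint A B → m (I (A ∪ B)) = m (I A) + m (I B) := fun A B d => by
    rw [← map_add]; congr 1
    refine Lp.ext ((Lp.coeFn_add (I A) (I B)).mono fun s e => ?_)
    have : s.1 0 ∈ A → s.1 0 ∉ B := fun k => Set.disjoint_left.1 d k
    rw [e, Pi.add_apply, hI, hI, hI, Set.mem_union]; grind
  have inf : ∀ (p : Set ℕ) (i : ℕ), (∀ n, 3 * n + i ∈ p) → p.Infinite := fun p i h =>
    Set.infinite_of_injective_forall_mem (f := fun n => 3 * n + i) (fun a b e => by
      simp only at e; omega) h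
  have a1 := ad {n | n % 3 = 0} {n | n % 3 = 1} (Set.disjoint_left.2 (by simp; omega))
  have a2 := ad _ _ (disjoint_compl_right (a := {n | n % 3 = 0}))
  have a3 := eq ({n | n % 3 = 0} ∪ {n | n % 3 = 1}) {n | n % 3 = 1} (inf _ 0 (by simp))
    (inf _ 2 (by simp)) (inf _ 1 (by simp)) (inf _ 0 (by simp))
  have a4 := eq {n | n % 3 = 0}ᶜ {n | n % 3 = 0} (inf _ 1 (by simp)) (inf _ 0 (by simp))
    (inf _ 0 (by simp)) (inf _ 1 (by simp))
  rw [h1 _ (.of_forall fun s => by simp [hI])] at a2
  linarith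

end Pool.Agent.H.MP_b39683_an
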